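import Pool.Agent.J4H43.MW.Stm

/-!
# The largest letter of a Lie element is a first letter (project MW, LL)
-/

set_option autoImplicit false

namespace Pool.Agent.J4H89.MW.LL

open Polynomial Pool.Agent.Helper392_GT Pool.Agent.J4H43.FR Pool.Agent.J4H43.SW
open Pool.Agent.J4H43.MW Pool.Agent.Helper771.FreeLieGrad

universe u

attribute [local instance 100] LieRing.ofAssociativeRing

section ll

variable {k : Type u} [Field k]

/-- all words of `b` satisfy `S` -/
def Sp (S : FreeMonoid ℕ → Prop) (b : BB k) : Prop := ∀ v, wc v b ≠ 0 → S v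

theorem Sp_zero (S : FreeMonoid ℕ → Prop) : Sp S (0 : BB k) := fun _ hv => absurd (map_zero _) hv

theorem Sp.add {S : FreeMonoid ℕ → Prop} {a b : BB k} (ha : Sp S a) (hb : Sp S b) :
    Sp S (a + b) := by
  intro v hv
  by_cases h : wc v a = 0
  · apply hb
    intro h'
    apply hv
    rw [map_add, h, h', add_zero]
  · exact ha v h

theorem Sp.smul {S : FreeMonoid ℕ → Prop} {a : BB k} (c : k) (ha : Sp S a) : Sp S (c • a) := by
  intro v hv
  apply ha
  intro h
  apply hv
  rw [map_smul, h, smul_zero]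

theorem Sp.neg {S : FreeMonoid ℕ → Prop} {a : BB k} (ha : Sp S a) : Sp S (-a) := by
  simpa using ha.smul (-1)

theorem Sp.sub {S : FreeMonoid ℕ → Prop} {a b : BB k} (ha : Sp S a) (hb : Sp S b) :
    Sp S (a - b) := by
  rw [sub_eq_add_neg]; exact ha.add hb.neg

theorem Sp.sum {ι : Type*} {S : FreeMonoid ℕ → Prop} {s : Finset ι} {f : ι → BB k}
    (h : ∀ i ∈ s, Sp S (f i)) : Sp S (∑ i ∈ s, f i) := by
  classical
  induction s using Finset.induction_on with
  | empty => rw [Finset.sum_empty]; exact Sp_zero S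
  | insert a s ha ih =>
    rw [Finset.sum_insert ha]
    exact (h a (Finset.mem_insert_self _ _)).add
      (ih fun i hi => h i (Finset.mem_insert_of_mem hi))

theorem Sp_wrd {S : FreeMonoid ℕ → Prop} {w : FreeMonoid ℕ} (hw : S w) : Sp S (wrd w : BB k) := by
  intro v hv
  by_cases h : v = w
  · rw [h]; exact hw
  · exact absurd (wc_wrd_ne h) hv

theorem Sp.map {S T : FreeMonoid ℕ → Prop} (G : BB k →ₗ[k] BB k)
    (hG : ∀ w : FreeMonoid ℕ, S w → Sp T (G (wrd w)))
    {b : BB k} (hb : Sp S b) : Sp T (G b) := by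
  intro v hv
  by_contra hne
  apply hv
  have : ((wc v) ∘ₗ G) b = 0 := by
    refine lin_zero _ fun w hw => ?_
    rw [LinearMap.comp_apply]
    by_contra h
    exact hne (hG w (hb w hw) v h)
  exact this

/-- letters at most `A` -/
def LeA (A : ℕ) (v : FreeMonoid ℕ) : Prop := ∀ a ∈ FreeMonoid.toList v, a ≤ A

theorem Sp.lmul {A : ℕ} {b : BB k} (hb : Sp (LeA A) b) {a : ℕ} (ha : a ≤ A) :
    Sp (LeA A) (ee k a * b) := by
  refine Sp.map (LinearMap.mulLeft k (ee k a)) (fun w hw => ?_) hb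
  rw [LinearMap.mulLeft_apply, show (ee k a : BB k) = wrd (FreeMonoid.of a) from (wrd_of a).symm,
    ← wrd_mul]
  refine Sp_wrd fun c hc => ?_
  rw [FreeMonoid.toList_of_mul, List.mem_cons] at hc
  rcases hc with rfl | hc
  · exact ha
  · exact hw c hc

theorem Sp.rmul {A : ℕ} {b : BB k} (hb : Sp (LeA A) b) {a : ℕ} (ha : a ≤ A) :
    Sp (LeA A) (b * ee k a) := by
  refine Sp.map (LinearMap.mulRight k (ee k a)) (fun w hw => ?_) hb
  rw [LinearMap.mulRight_apply, show (ee k a : BB k) = wrd (FreeMonoid.of a) from (wrd_of a).symm,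
    ← wrd_mul]
  refine Sp_wrd fun c hc => ?_
  rw [FreeMonoid.toList_mul, FreeMonoid.toList_of, List.mem_append, List.mem_singleton] at hc
  rcases hc with hc | rfl
  · exact hw c hc
  · exact ha

theorem Sp_Hm {n : ℕ} {b : BB k} (hb : Hm n b) : Sp (fun v => v.length = n) b := by
  intro v hv
  by_contra hne
  apply hv
  have h := wc_hc v v.length b
  rw [if_pos rfl, hb v.length, if_neg hne, map_zero] at h
  exact h.symm

theorem Hm_of {n : ℕ} {b : BB k} (h : ∀ m, m ≠ n → hc m b = 0) : Hm n b := by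
  have h1 : hc n b - b = 0 := by
    refine eq_zero_of_hc fun m => ?_
    rw [map_sub, hc_hc]
    by_cases hm : m = n
    · rw [if_pos hm, hm, sub_self]
    · rw [if_neg hm, h m hm, sub_zero]
  intro m
  by_cases hm : m = n
  · rw [if_pos hm, hm]; exact sub_eq_zero.mp h1
  · rw [if_neg hm, h m hm]

theorem wc_lq (a : ℕ) (v : FreeMonoid ℕ) (b : BB k) : wc (FreeMonoid.of a * v) b =
    wc v (lq b a) := by
  refine left_ind (fun b => wc (FreeMonoid.of a * v) b = wc v (lq b a)) ?_ ?_ ?_ ?_ b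
  · classical
    rw [wc_unit, if_neg (of_mul_ne_one a v), lq_one, Finsupp.zero_apply, map_zero]
  · intro x y hx hy
    rw [map_add, hx, hy, map_add, Finsupp.add_apply, map_add]
  · intro c x hx
    rw [map_smul, hx, map_smul, Finsupp.smul_apply, map_smul]
  · intro y x _
    rw [lq_ι_mul]
    by_cases h : y = a
    · subst h
      rw [wc_ι_mul, Finsupp.single_eq_same]
    · rw [wc_ι_mul_ne h, Finsupp.single_eq_of_ne (Ne.symm h), map_zero]

/-- the operator of a letter on `k × L` -/
noncomputable def wM (k : Type u) [Field k] (y : ℕ) : Module.End k (k × FreeLieAlgebra k ℕ) where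
  toFun v := (0, v.1 • FreeLieAlgebra.of k y + ⁅FreeLieAlgebra.of k y, v.2⁆)
  map_add' v w := by
    rw [Prod.fst_add, Prod.snd_add, add_smul, lie_add]
    ext
    · simp
    · exact add_add_add_comm _ _ _ _
  map_smul' c v := by
    rw [Prod.smul_fst, Prod.smul_snd, lie_smul, smul_eq_mul, mul_smul, ← smul_add]
    ext
    · simp
    · rfl

theorem wM_apply (y : ℕ) (v : k × FreeLieAlgebra k ℕ) :
    wM k y v = (0, v.1 • FreeLieAlgebra.of k y + ⁅FreeLieAlgebra.of k y, v.2⁆) := rfl

/-- the action of the free associative algebra -/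
noncomputable def wA (k : Type u) [Field k] : BB k →ₐ[k] Module.End k (k × FreeLieAlgebra k ℕ) :=
  FreeAlgebra.lift k (wM k)

/-- the Euler derivation -/
noncomputable def wD (k : Type u) [Field k] : FreeLieAlgebra k ℕ →ₗ[k] FreeLieAlgebra k ℕ where
  toFun z := (wA k (toN k z) (1, 0)).2
  map_add' a b := by rw [map_add, map_add]; rfl
  map_smul' c a := by rw [map_smul, map_smul]; rfl

theorem wD_apply (z : FreeLieAlgebra k ℕ) : wD k z = (wA k (toN k z) (1, 0)).2 := rfl

theorem toN_of (a : ℕ) : toN k (FreeLieAlgebra.of k a) = ee k a :=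
  FreeLieAlgebra.lift_of_apply (R := k) _ a

theorem toN_lie (a b : FreeLieAlgebra k ℕ) : toN k ⁅a, b⁆ =
    toN k a * toN k b - toN k b * toN k a := by
  rw [LieHom.map_lie]; rfl

theorem wA_ι (y : ℕ) : wA k (ee k y) = wM k y := by
  rw [wA, FreeAlgebra.lift_ι_apply]

theorem wA_of (y : ℕ) : wA k (toN k (FreeLieAlgebra.of k y)) = wM k y := by
  rw [toN_of, wA_ι]

theorem wD_of (y : ℕ) : wD k (FreeLieAlgebra.of k y) = FreeLieAlgebra.of k y := by
  rw [wD_apply, wA_of, wM_apply, one_smul, lie_zero, add_zero]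

theorem wA_lie (a b : FreeLieAlgebra k ℕ) (v : k × FreeLieAlgebra k ℕ) : wA k (toN k ⁅a, b⁆) v =
    wA k (toN k a) (wA k (toN k b) v) - wA k (toN k b) (wA k (toN k a) v) := by
  rw [toN_lie, map_sub, map_mul, map_mul, LinearMap.sub_apply, Module.End.mul_apply,
    Module.End.mul_apply]

theorem wA_eq (z : FreeLieAlgebra k ℕ) : ∀ v : k × FreeLieAlgebra k ℕ,
    wA k (toN k z) v = (0, v.1 • wD k z + ⁅z, v.2⁆) := by
  refine free_induction (P := fun z => ∀ v : k × FreeLieAlgebra k ℕ,
    wA k (toN k z) v = (0, v.1 • wD k z + ⁅z, v.2⁆)) ?_ ?_ ?_ ?_ ?_ z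
  · intro y v
    rw [wA_of, wM_apply, wD_of]
  · intro v
    rw [map_zero, map_zero, map_zero, LinearMap.zero_apply, smul_zero, zero_lie, add_zero]
    rfl
  · intro a b ha hb v
    rw [map_add, map_add, LinearMap.add_apply, ha, hb, map_add, add_lie, smul_add, Prod.mk_add_mk,
      add_zero]
    congr 1
    abel
  · intro c a ha v
    rw [map_smul, map_smul, LinearMap.smul_apply, ha, map_smul, smul_lie, Prod.smul_mk, smul_zero,
      smul_add, smul_comm c v.1]
  · intro a b ha hb v
    have h1 : wD k ⁅a, b⁆ = ⁅a, wD k b⁆ - ⁅b, wD k a⁆ := by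
      rw [wD_apply, wA_lie, ha, hb, ha, hb]
      simp
    rw [wA_lie, ha, hb, ha, hb, h1]
    simp only [zero_smul, zero_add, lie_add, lie_smul, Prod.mk_sub_mk, sub_zero, smul_sub, lie_lie]
    congr 1
    abel

theorem wD_lie (a b : FreeLieAlgebra k ℕ) : wD k ⁅a, b⁆ = ⁅a, wD k b⁆ + ⁅wD k a, b⁆ := by
  have h1 : wD k ⁅a, b⁆ = ⁅a, wD k b⁆ - ⁅b, wD k a⁆ := by
    rw [wD_apply, wA_lie, wA_eq, wA_eq, wA_eq, wA_eq]
    simp
  rw [h1, ← lie_skew b (wD k a)]
  abel

theorem dr_mul (f : ℕ → BB k) (a b : BB k) : dr f (a * b) = dr f a * b + a * dr f b := by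
  refine left_ind (fun a => dr f (a * b) = dr f a * b + a * dr f b) ?_ ?_ ?_ ?_ a
  · rw [one_mul, dr_one, zero_mul, zero_add, one_mul]
  · intro a c ha hc
    rw [add_mul, map_add, ha, hc, map_add]
    noncomm_ring
  · intro r a ha
    rw [smul_mul_assoc, map_smul, ha, map_smul, smul_mul_assoc, smul_mul_assoc, smul_add]
  · intro y a ha
    rw [mul_assoc, dr_ι_mul, ha, dr_ι_mul]
    noncomm_ring

theorem toN_wD (z : FreeLieAlgebra k ℕ) : toN k (wD k z) = dr (ee k) (toN k z) := by
  refine free_induction (P := fun z => toN k (wD k z) = dr (ee k) (toN k z)) ?_ ?_ ?_ ?_ ?_ z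
  · intro y
    have h := dr_ι_mul (ee k) y (1 : BB k)
    rw [mul_one, dr_one, mul_zero, add_zero] at h
    rw [wD_of, toN_of, h]
  · rw [map_zero, map_zero, map_zero]
  · intro a b ha hb
    rw [map_add, map_add, ha, hb, map_add, map_add]
  · intro c a ha
    rw [map_smul, map_smul, ha, map_smul, map_smul]
  · intro a b ha hb
    rw [wD_lie, map_add, toN_lie, toN_lie, ha, hb, toN_lie, map_sub, dr_mul, dr_mul]
    noncomm_ring

theorem dr_wrd (v : FreeMonoid ℕ) : dr (ee k) (wrd v) = (v.length : k) • (wrd v : BB k) := by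
  induction v using FreeMonoid.recOn with
  | one =>
    rw [wrd_one, dr_one, FreeMonoid.length_one, Nat.cast_zero, zero_smul]
  | of_mul a v ih =>
    rw [wrd_mul, wrd_of, dr_ι_mul, ih, FreeMonoid.length_mul, FreeMonoid.length_of, mul_smul_comm,
      Nat.cast_add, Nat.cast_one, add_smul, one_smul]

theorem dr_Hm {n : ℕ} {b : BB k} (hb : Hm n b) : dr (ee k) b = (n : k) • b := by
  have h : (dr (ee k) - (n : k) • (LinearMap.id : BB k →ₗ[k] BB k)) b = 0 := by
    refine lin_zero _ fun v hv => ?_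
    have hl : v.length = n := Sp_Hm hb v hv
    rw [LinearMap.sub_apply, dr_wrd, hl, LinearMap.smul_apply, LinearMap.id_apply, sub_self]
  rw [LinearMap.sub_apply, sub_eq_zero] at h
  exact h

/-- Dynkin's map -/
noncomputable def R (k : Type u) [Field k] : BB k →ₗ[k] FreeLieAlgebra k ℕ where
  toFun b := (wA k b (1, 0)).2
  map_add' a b := by rw [map_add]; rfl
  map_smul' c a := by rw [map_smul]; rfl

theorem R_apply (b : BB k) : R k b = (wA k b (1, 0)).2 := rfl

theorem wA_fst (b : BB k) : (wA k b (1, 0)).1 = eps b := by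
  refine left_ind (fun b => (wA k b (1, 0)).1 = eps b) ?_ ?_ ?_ ?_ b
  · rw [map_one, map_one]; rfl
  · intro a b ha hb
    rw [map_add, LinearMap.add_apply, Prod.fst_add, ha, hb, map_add]
  · intro c a ha
    rw [map_smul, LinearMap.smul_apply, Prod.smul_fst, ha, map_smul]
  · intro y a _
    rw [map_mul, Module.End.mul_apply, wA_ι, wM_apply, map_mul, eps_ι, zero_mul]

theorem R_one : R k (1 : BB k) = 0 := by
  rw [R_apply, map_one]; rfl

theorem R_ι_mul (a : ℕ) (b : BB k) : R k (ee k a * b) =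
    eps b • FreeLieAlgebra.of k a + ⁅FreeLieAlgebra.of k a, R k b⁆ := by
  rw [R_apply, map_mul, Module.End.mul_apply, wA_ι, wM_apply, wA_fst]; rfl

theorem Dynkin {n : ℕ} {P : FreeLieAlgebra k ℕ} (h : Hm n (toN k P)) :
    (n : k) • toN k P = toN k (R k (toN k P)) := by
  rw [← dr_Hm h, ← toN_wD]; rfl

theorem Hm_ι (a : ℕ) : Hm 1 (ee k a) := fun m => hc_ι m a

theorem eps_wrd {v : FreeMonoid ℕ} (hv : v.length ≠ 0) : eps (wrd v : BB k) = 0 := by
  rw [← wc_one]
  apply wc_wrd_ne
  rintro rfl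
  exact hv rfl

theorem Hm_R_wrd (v : FreeMonoid ℕ) : Hm v.length (toN k (R k (wrd v))) := by
  induction v using FreeMonoid.recOn with
  | one =>
    rw [wrd_one, R_one, map_zero]; exact Hm.zero _
  | of_mul a v ih =>
    rw [wrd_mul, wrd_of, R_ι_mul, map_add, map_smul, toN_lie, toN_of, FreeMonoid.length_mul,
      FreeMonoid.length_of]
    refine Hm.add ?_ (Hm.sub ((Hm_ι a).mul ih) ?_)
    · by_cases hv : v.length = 0
      · rw [hv]; exact (Hm_ι a).smul _
      · rw [eps_wrd hv, zero_smul]; exact Hm.zero _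
    · have := ih.mul (Hm_ι (k := k) a)
      rwa [add_comm] at this

theorem Hm_R {n : ℕ} {b : BB k} (hb : Hm n b) : Hm n (toN k (R k b)) := by
  refine Hm_of fun m hm => ?_
  have : ((hc m) ∘ₗ ((toN k : FreeLieAlgebra k ℕ →ₗ[k] BB k) ∘ₗ R k)) b = 0 := by
    refine lin_zero _ fun v hv => ?_
    have hl : v.length = n := Sp_Hm hb v hv
    exact (Hm_R_wrd v).ne (by rw [hl]; exact hm)
  exact this

theorem Hm_lq {n : ℕ} {b : BB k} (hb : Hm (n + 1) b) (a : ℕ) : Hm n (lq b a) := by
  intro m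
  rw [← lq_hc, hb (m + 1)]
  by_cases hm : m = n
  · rw [if_pos hm, if_pos (by omega)]
  · rw [if_neg hm, if_neg (by omega), map_zero, Finsupp.zero_apply]

theorem Dynkin_sum {n : ℕ} {P : FreeLieAlgebra k ℕ} (h : Hm (n + 2) (toN k P)) :
    ((n + 2 : ℕ) : k) • toN k P = ∑ a ∈ (lq (toN k P)).support,
      (ee k a * toN k (R k (lq (toN k P) a)) - toN k (R k (lq (toN k P) a)) * ee k a) := by
  have hp : toN k P = ∑ a ∈ (lq (toN k P)).support, ee k a * lq (toN k P) a := by
    have := decomp (toN k P)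
    rw [h.eps_zero (by omega), map_zero, zero_add] at this
    exact this
  have h1 : R k (toN k P) = ∑ a ∈ (lq (toN k P)).support,
      ⁅FreeLieAlgebra.of k a, R k (lq (toN k P) a)⁆ := by
    nth_rewrite 1 [hp]
    rw [map_sum]
    refine Finset.sum_congr rfl fun a _ => ?_
    rw [R_ι_mul, (Hm_lq (n := n + 1) h a).eps_zero (by omega), zero_smul, zero_add]
  rw [Dynkin h, h1, map_sum]
  refine Finset.sum_congr rfl fun a _ => ?_
  rw [toN_lie, toN_of]

theorem main [CharZero k] (A d : ℕ) : ∀ P : FreeLieAlgebra k ℕ, Hm (d + 1) (toN k P) →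
    (∀ a, A < a → lq (toN k P) a = 0) → Sp (LeA A) (toN k P) := by
  induction d with
  | zero =>
    intro P hP hA v hv a ha
    have hl : v.length = 0 + 1 := Sp_Hm hP v hv
    rw [zero_add, FreeMonoid.length_eq_one] at hl
    obtain ⟨b, rfl⟩ := hl
    rw [FreeMonoid.toList_of, List.mem_singleton] at ha
    subst ha
    by_contra hlt
    apply hv
    rw [← mul_one (FreeMonoid.of a), wc_lq, hA a (by omega), map_zero]
  | succ d ih =>
    intro P hP hA
    have hD := Dynkin_sum (n := d) hP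
    set p := toN k P with hp
    set ρ : ℕ → BB k := fun a => toN k (R k (lq p a)) with hρ
    have hρm : ∀ a, Hm (d + 1) (ρ a) := fun a => Hm_R (Hm_lq hP a)
    have hle : ∀ a ∈ (lq p).support, a ≤ A := by
      intro a ha
      by_contra hlt
      exact (Finsupp.mem_support_iff.mp ha) (hA a (by omega))
    have hz : ∀ b, A < b → ∀ a ∈ (lq p).support, lq (ρ a) b = 0 := by
      intro b hb a ha
      have h1 : ∑ a ∈ (lq p).support, lq (ρ a) b * ee k a = 0 := by
        have h2 := congrArg (fun x => lq x b) hD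
        simp only [map_smul, Finsupp.smul_apply, hA b hb, smul_zero, map_sum,
          Finsupp.finsetSum_apply, map_sub, Finsupp.sub_apply, lq_ι_mul] at h2
        rw [← neg_eq_zero, ← Finset.sum_neg_distrib, h2]
        refine Finset.sum_congr rfl fun c hc => ?_
        have hcb : c ≠ b := by have := hle c hc; omega
        rw [Finsupp.single_eq_of_ne (Ne.symm hcb), zero_sub, lq_mul,
          (hρm c).eps_zero (by omega), zero_smul, zero_add]
      refine wc_ext fun v => ?_
      have h3 := congrArg (wc (v * FreeMonoid.of a)) h1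
      rw [map_sum, map_zero, Finset.sum_eq_single a, wc_mul_ι] at h3
      · exact h3
      · intro c _ hca
        exact wc_mul_ι_ne v (Ne.symm hca) _
      · intro h; exact absurd ha h
    have hS : Sp (LeA A) (((d + 2 : ℕ) : k) • p) := by
      rw [hD]
      refine Sp.sum fun a ha => ?_
      have h4 : Sp (LeA A) (ρ a) := ih _ (hρm a) fun b hb => hz b hb a ha
      exact (h4.lmul (hle a ha)).sub (h4.rmul (hle a ha))
    have h5 := hS.smul (((d + 2 : ℕ) : k)⁻¹)
    rwa [smul_smul, inv_mul_cancel₀ (Nat.cast_ne_zero.mpr (by omega)), one_smul] at h5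

/-- the largest letter is a first letter -/
theorem t_LL : S_LL := by
  intro k _ _ P d A hd hP hA v hv a ha
  obtain ⟨d, rfl⟩ : ∃ d', d = d' + 1 := ⟨d - 1, by omega⟩
  exact main A d P hP hA v hv a ha

end ll

end Pool.Agent.J4H89.MW.LL
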