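import Pool.Agent.J4H43.MW.Stm

/-!
# Elimination of `x` (project MW, REP)
-/

set_option autoImplicit false

namespace Pool.Agent.J4H89.MW

open Polynomial Pool.Agent.Helper392_GT Pool.Agent.J4H43.FR Pool.Agent.J4H43.SW
open Pool.Agent.J4H43.MW

universe u

attribute [local instance 100] LieRing.ofAssociativeRing

section rep

variable {k : Type u} [Field k]

theorem toN_of (a : ℕ) : toN k (FreeLieAlgebra.of k a) = ee k a :=
  FreeLieAlgebra.lift_of_apply (R := k) _ a

theorem Eh_ι (a : ℕ) : Eh k (ee k a) = rs (vm k a) := by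
  rw [Eh, FreeAlgebra.lift_ι_apply]

theorem rs_gx : rs (gx k) = (xh : Module.End k (BB k)[X]) := by
  rw [rs, subst_x]

theorem rs_gy : rs (gy k) = (yh : Module.End k (BB k)[X]) := by
  rw [rs, subst_y]

theorem rs_lie (a b : F2 k) : rs ⁅a, b⁆ = rs a * rs b - rs b * rs a := by
  rw [rs, LieHom.map_lie, Ring.lie_def]

theorem Eh_zero_letter : Eh k (ee k 0) = yh := by
  rw [Eh_ι, show vm k 0 = gy k from rfl, rs_gy]

/-- the words of `b` have weight `n` -/
def Ww (n : ℕ) (b : BB k) : Prop :=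
  ∀ v : FreeMonoid ℕ, wc v b ≠ 0 → v.length + (FreeMonoid.toList v).sum = n

theorem Ww_zero (n : ℕ) : Ww n (0 : BB k) := fun _ hv => absurd (map_zero _) hv

theorem Ww.add {n : ℕ} {a b : BB k} (ha : Ww n a) (hb : Ww n b) : Ww n (a + b) := by
  intro v hv
  by_cases h : wc v a = 0
  · apply hb
    intro h'
    apply hv
    rw [map_add, h, h', add_zero]
  · exact ha v h

theorem Ww.smul {n : ℕ} {a : BB k} (c : k) (ha : Ww n a) : Ww n (c • a) := by
  intro v hv
  apply ha
  intro h
  apply hv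
  rw [map_smul, h, smul_zero]

theorem Ww.neg {n : ℕ} {a : BB k} (ha : Ww n a) : Ww n (-a) := by
  simpa using ha.smul (-1)

theorem Ww.sub {n : ℕ} {a b : BB k} (ha : Ww n a) (hb : Ww n b) : Ww n (a - b) := by
  rw [sub_eq_add_neg]; exact ha.add hb.neg

theorem Ww_wrd (w : FreeMonoid ℕ) :
    Ww (w.length + (FreeMonoid.toList w).sum) (wrd w : BB k) := by
  intro v hv
  by_cases h : v = w
  · rw [h]
  · exact absurd (wc_wrd_ne h) hv

theorem Ww.map {n m : ℕ} (G : BB k →ₗ[k] BB k)
    (hG : ∀ w : FreeMonoid ℕ, w.length + (FreeMonoid.toList w).sum = n → Ww m (G (wrd w)))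
    {b : BB k} (hb : Ww n b) : Ww m (G b) := by
  intro v hv
  by_contra hne
  apply hv
  have : ((wc v) ∘ₗ G) b = 0 := by
    refine lin_zero _ fun w hw => ?_
    rw [LinearMap.comp_apply]
    by_contra h
    exact hne (hG w (hb w hw) v h)
  exact this

theorem of_weight (a : ℕ) (w : FreeMonoid ℕ) :
    (FreeMonoid.of a * w).length + (FreeMonoid.toList (FreeMonoid.of a * w)).sum =
      w.length + (FreeMonoid.toList w).sum + a + 1 := by
  rw [FreeMonoid.length_mul, FreeMonoid.length_of, FreeMonoid.toList_of_mul, List.sum_cons]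
  omega

theorem Ww.lmul {n : ℕ} {b : BB k} (hb : Ww n b) (a : ℕ) : Ww (n + a + 1) (ee k a * b) := by
  refine Ww.map (LinearMap.mulLeft k (ee k a)) (fun w hw => ?_) hb
  rw [LinearMap.mulLeft_apply, show (ee k a : BB k) = wrd (FreeMonoid.of a) from (wrd_of a).symm,
    ← wrd_mul, ← hw, ← of_weight]
  exact Ww_wrd _

theorem Ww.rmul {n : ℕ} {b : BB k} (hb : Ww n b) (a : ℕ) : Ww (n + a + 1) (b * ee k a) := by
  refine Ww.map (LinearMap.mulRight k (ee k a)) (fun w hw => ?_) hb
  rw [LinearMap.mulRight_apply, show (ee k a : BB k) = wrd (FreeMonoid.of a) from (wrd_of a).symm,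
    ← wrd_mul, ← hw]
  have : w.length + (FreeMonoid.toList w).sum + a + 1 =
      (w * FreeMonoid.of a).length + (FreeMonoid.toList (w * FreeMonoid.of a)).sum := by
    rw [FreeMonoid.length_mul, FreeMonoid.length_of, FreeMonoid.toList_mul, List.sum_append,
      FreeMonoid.toList_of, List.sum_singleton]
    omega
  rw [this]
  exact Ww_wrd _

theorem Ww_ι (a : ℕ) : Ww (a + 1) (ee k a) := by
  have := Ww_wrd (k := k) (FreeMonoid.of a)
  rw [wrd_of, FreeMonoid.length_of, FreeMonoid.toList_of, List.sum_singleton] at this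
  rwa [add_comm] at this

/-- the shift of the letters -/
noncomputable abbrev sh (k : Type u) [Field k] : BB k →ₗ[k] BB k := dr (fun a => ee k (a + 1))

theorem dr_mul (f : ℕ → BB k) (a b : BB k) : dr f (a * b) = dr f a * b + a * dr f b := by
  refine left_ind (fun a => dr f (a * b) = dr f a * b + a * dr f b) ?_ ?_ ?_ ?_ a
  · rw [one_mul, dr_one, zero_mul, zero_add, one_mul]
  · intro a c ha hc
    rw [add_mul, map_add, ha, hc, map_add]
    noncomm_ring
  · intro r a ha
    rw [smul_mul_assoc, map_smul, ha, map_smul, smul_mul_assoc, smul_mul_assoc, smul_add]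
  · intro y a ha
    rw [mul_assoc, dr_ι_mul, ha, dr_ι_mul]
    noncomm_ring

theorem sh_wrd (w : FreeMonoid ℕ) :
    Ww (w.length + (FreeMonoid.toList w).sum + 1) (sh k (wrd w)) := by
  induction w using FreeMonoid.recOn with
  | one =>
    rw [wrd_one, sh, dr_one]
    exact Ww_zero _
  | of_mul a v ih =>
    rw [wrd_mul, wrd_of, sh, dr_ι_mul, of_weight]
    refine Ww.add ?_ ?_
    · have := (Ww_wrd (k := k) v).lmul (a + 1)
      exact this
    · have := ih.lmul a
      rwa [show v.length + (FreeMonoid.toList v).sum + 1 + a + 1 =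
        v.length + (FreeMonoid.toList v).sum + a + 1 + 1 by omega] at this

theorem Ww.sh {n : ℕ} {b : BB k} (hb : Ww n b) : Ww (n + 1) (sh k b) :=
  Ww.map _ (fun w hw => by rw [← hw]; exact sh_wrd w) hb

theorem sh_lie (P : FreeLieAlgebra k ℕ) : ∃ P' : FreeLieAlgebra k ℕ, toN k P' = sh k (toN k P) := by
  refine Pool.Agent.Helper771.FreeLieGrad.free_induction (P := fun P => ∃ P' : FreeLieAlgebra k ℕ,
    toN k P' = sh k (toN k P)) ?_ ?_ ?_ ?_ ?_ P
  · intro y
    refine ⟨FreeLieAlgebra.of k (y + 1), ?_⟩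
    have h := dr_ι_mul (fun a => ee k (a + 1)) y (1 : BB k)
    rw [mul_one, dr_one, mul_zero, add_zero, mul_one] at h
    rw [toN_of, toN_of, sh, h]
  · exact ⟨0, by rw [map_zero, map_zero]⟩
  · rintro a b ⟨a', ha⟩ ⟨b', hb⟩
    exact ⟨a' + b', by rw [map_add, ha, hb, map_add, map_add]⟩
  · rintro c a ⟨a', ha⟩
    exact ⟨c • a', by rw [map_smul, ha, map_smul, map_smul]⟩
  · rintro a b ⟨a', ha⟩ ⟨b', hb⟩
    refine ⟨⁅a', b⁆ + ⁅a, b'⁆, ?_⟩
    rw [map_add, LieHom.map_lie, LieHom.map_lie, LieHom.map_lie, ha, hb, Ring.lie_def,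
      Ring.lie_def, Ring.lie_def, map_sub, sh, dr_mul, dr_mul]
    noncomm_ring

theorem rs_lie_apply (a b : F2 k) (F : (BB k)[X]) : rs ⁅a, b⁆ F = rs a (rs b F) - rs b (rs a F) := by
  rw [rs, LieHom.map_lie, Ring.lie_def]; rfl

theorem Eh_letter_X (y : ℕ) (F : (BB k)[X]) :
    X * Eh k (ee k y) F - Eh k (ee k y) (X * F) = Eh k (ee k (y + 1)) F := by
  rw [Eh_ι, Eh_ι, vm_succ, rs_lie_apply, rs_gx, xh_apply, xh_apply]

theorem Eh_mul (a b : BB k) (F : (BB k)[X]) : Eh k (a * b) F = Eh k a (Eh k b F) := by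
  rw [map_mul (Eh k)]; rfl

theorem xh_Eh (b : BB k) : ∀ F : (BB k)[X], X * Eh k b F - Eh k b (X * F) = Eh k (sh k b) F := by
  refine left_ind (fun b => ∀ F : (BB k)[X], X * Eh k b F - Eh k b (X * F) =
    Eh k (sh k b) F) ?_ ?_ ?_ ?_ b
  · intro F
    rw [map_one, sh, dr_one, map_zero, LinearMap.zero_apply, Module.End.one_apply,
      Module.End.one_apply, sub_self]
  · intro a b ha hb F
    rw [map_add, map_add, map_add, LinearMap.add_apply, LinearMap.add_apply, LinearMap.add_apply,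
      ← ha, ← hb, mul_add]
    abel
  · intro c a ha F
    rw [map_smul, map_smul, map_smul, LinearMap.smul_apply, LinearMap.smul_apply,
      LinearMap.smul_apply, ← ha, mul_smul_comm, smul_sub]
  · intro y a ha F
    have h1 := Eh_letter_X y (Eh k a F)
    have h2 : Eh k a (X * F) = X * Eh k a F - Eh k (sh k a) F := by
      rw [← ha F]; abel
    rw [sh, dr_ι_mul, map_add, LinearMap.add_apply, Eh_mul, Eh_mul, Eh_mul, Eh_mul, h2, map_sub,
      ← h1]
    abel

/-- the statement for one element -/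
def Rp (k : Type u) [Field k] (n : ℕ) (f : F2 k) : Prop :=
  ∃ (c : k) (P : FreeLieAlgebra k ℕ), rs f = c • xh + Eh k (toN k P) ∧ (n ≠ 1 → c = 0) ∧
    Ww n (toN k P)

theorem rp {n : ℕ} {f : F2 k} (hf : f ∈ wt k n) : Rp k n f := by
  refine wt_ind (Rp k) ?_ ?_ ?_ ?_ ?_ ?_ ?_ n hf
  · intro n
    refine ⟨0, 0, ?_, fun _ => rfl, ?_⟩
    · rw [rs, map_zero, map_zero, map_zero, zero_smul, zero_add]
    · rw [map_zero]; exact Ww_zero n
  · rintro n a b ⟨c, P, h1, h2, h3⟩ ⟨c', P', h1', h2', h3'⟩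
    refine ⟨c + c', P + P', ?_, fun h => by rw [h2 h, h2' h, add_zero], ?_⟩
    · have e : rs (a + b) = rs a + rs b := by rw [rs, map_add]
      rw [e, h1, h1', map_add, map_add, add_smul]
      abel
    · rw [map_add]; exact h3.add h3'
  · rintro n r a ⟨c, P, h1, h2, h3⟩
    refine ⟨r * c, r • P, ?_, fun h => by rw [h2 h, mul_zero], ?_⟩
    · have e : rs (r • a) = r • rs a := by rw [rs, map_smul]
      rw [e, h1, map_smul, map_smul, smul_add, mul_smul]
    · rw [map_smul]; exact h3.smul r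
  · refine ⟨1, 0, ?_, fun h => absurd rfl h, ?_⟩
    · rw [rs_gx, map_zero, map_zero, one_smul, add_zero]
    · rw [map_zero]; exact Ww_zero 1
  · refine ⟨0, FreeLieAlgebra.of k 0, ?_, fun _ => rfl, ?_⟩
    · rw [rs_gy, toN_of, Eh_zero_letter, zero_smul, zero_add]
    · rw [toN_of]; exact Ww_ι 0
  · rintro n u _ ⟨c, P, h1, h2, h3⟩
    obtain ⟨P', hP'⟩ := sh_lie P
    have h1' : ∀ F, rs u F = c • (X * F) + Eh k (toN k P) F := fun F => by rw [h1]; rfl
    refine ⟨0, P', ?_, fun _ => rfl, ?_⟩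
    · rw [zero_smul, zero_add]
      refine LinearMap.ext fun F => ?_
      rw [rs_lie_apply, rs_gx, xh_apply, xh_apply, h1', h1', hP', ← xh_Eh, mul_add,
        mul_smul_comm]
      abel
    · rw [hP']; exact h3.sh
  · rintro n u _ ⟨c, P, h1, h2, h3⟩
    have h1' : ∀ F, rs u F = c • (X * F) + Eh k (toN k P) F := fun F => by rw [h1]; rfl
    refine ⟨0, ⁅FreeLieAlgebra.of k 0, P⁆ - c • FreeLieAlgebra.of k 1, ?_, fun _ => rfl, ?_⟩
    · have e1 : ∀ F : (BB k)[X], Eh k (ee k 1) F = X * yh F - yh (X * F) := by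
        intro F
        have := Eh_letter_X 0 F
        rw [← this, Eh_zero_letter]
      have e2 : toN k (⁅FreeLieAlgebra.of k 0, P⁆ - c • FreeLieAlgebra.of k 1) =
          ee k 0 * toN k P - toN k P * ee k 0 - c • ee k 1 := by
        rw [map_sub, LieHom.map_lie, map_smul, toN_of, toN_of, Ring.lie_def]
      rw [e2, zero_smul, zero_add]
      refine LinearMap.ext fun F => ?_
      rw [rs_lie_apply, rs_gy, h1', h1', map_sub, map_sub, map_mul, map_mul, map_smul,
        Eh_zero_letter, LinearMap.sub_apply, LinearMap.sub_apply, LinearMap.smul_apply, e1,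
        Module.End.mul_apply, Module.End.mul_apply, map_add, map_smul, smul_sub]
      abel
    · rw [map_sub, LieHom.map_lie, map_smul, toN_of, toN_of, Ring.lie_def]
      refine Ww.sub (Ww.sub (h3.lmul 0) (h3.rmul 0)) ?_
      by_cases hn : n = 1
      · rw [hn]; exact (Ww_ι 1).smul c
      · rw [h2 hn, zero_smul]; exact Ww_zero _

/-- elimination of `x` -/
theorem t_REP : S_REP := by
  intro k _ n f hf
  exact rp hf

end rep

end Pool.Agent.J4H89.MW
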